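import Pool.Agent.R191.EO.Final2
import Pool.Agent.R191.EO.Encode
import Pool.Agent.R191.EO.Glue
import Pool.Agent.R191.EO.PGroup
import Pool.Agent.R191.EO.Solv
import Pool.Agent.R191.EO.Simple

/-!
# Linear edge count for finite groups whose simple sections are generated by boundedly many elements

For every `D` there is a constant `c` such that every finite group `G` generated by `k` subgroups, all
simple sections of which are generated by `D` elements, is represented by a finite graph with at most
`c (k + 1) |G|` edges. For `D = 1` this contains all groups generated by `k` solvable subgroups; by the
classification every finite simple group is generated by two elements, so that `D = 2`, `k = 1` is the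
case of all finite groups.

The proof: rigid coloured digraph representations (`HasRep`), a gluing lemma (`glue`) which combines
representations of sections `H_i / M_i`, and contracting recursions for `p`-groups, for solvable groups
and, by the Frattini argument for a minimal normal subgroup above the solvable radical, in general.
-/

set_option autoImplicit false

namespace Pool.Agent.Results.MP_585e73_co.SectionGenerated

open Pool.Agent.R191.EO

/-- For every `D` there is a constant `c` such that every finite group `G` generated by `k` subgroups
`H 0, ..., H (k-1)`, in each of which every simple section is generated by `D` elements (`SectGen`), is
represented by a finite graph with at most `c * (k + 1) * |G|` edges. -/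
theorem result :
    ∀ D : ℕ, ∃ c : ℕ, ∀ (G : Type) [Group G] [Finite G] (k : ℕ) (H : Fin k → Subgroup G),
      (∀ i, SectGen D (H i)) → (⨆ i, H i) = ⊤ →
      ∃ (V : Type) (_ : Finite V) (X : SimpleGraph V),
        Nonempty ((X ≃g X) ≃* G) ∧ Nat.card X.edgeSet ≤ c * (k + 1) * Nat.card G :=
  main_sect glue encode (simpleGen glue (Solv.solvable glue (PG.pgroup glue)))

end Pool.Agent.Results.MP_585e73_co.SectionGenerated
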